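import Mathlib

/-!
# Eigenvalues of quotients
-/

set_option autoImplicit false

namespace Pool.Agent.R773.TE

/-- Complex eigenvalues of a quotient of `D` are eigenvalues of `D`. -/
theorem root_of_factor {E E' : Type*} [AddCommGroup E] [Module ℝ E] [FiniteDimensional ℝ E]
    [AddCommGroup E'] [Module ℝ E'] [FiniteDimensional ℝ E'] (D : E →ₗ[ℝ] E) (D' : E' →ₗ[ℝ] E')
    (Q : E →ₗ[ℝ] E') (hQ : Function.Surjective Q) (h : ∀ v, Q (D v) = D' (Q v)) (μ : ℂ)
    (hμ : ((LinearMap.charpoly D').map (algebraMap ℝ ℂ)).IsRoot μ) :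
    ((LinearMap.charpoly D).map (algebraMap ℝ ℂ)).IsRoot μ := by
  classical
  have hpow : ∀ (i : ℕ) (v : E), (D' ^ i) (Q v) = Q ((D ^ i) v) := by
    intro i
    induction i with
    | zero => intro v; rfl
    | succ i ih =>
      intro v
      rw [pow_succ, pow_succ, Module.End.mul_apply, Module.End.mul_apply, ← h, ih]
  have h1 : ∀ (p : Polynomial ℝ) (v : E),
      Polynomial.aeval D' p (Q v) = Q (Polynomial.aeval D p v) := by
    intro p
    induction p using Polynomial.induction_on' with
    | add p q hp hq => intro v; rw [map_add, map_add, LinearMap.add_apply, LinearMap.add_apply, hp, hq, map_add]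
    | monomial i a =>
      intro v
      rw [Polynomial.aeval_monomial, Polynomial.aeval_monomial, Module.algebraMap_end_eq_smul_id,
        Module.algebraMap_end_eq_smul_id]
      simp only [Module.End.mul_apply, LinearMap.smul_apply, LinearMap.id_apply]
      rw [hpow, map_smul]
  have h2 : Polynomial.aeval D' D.charpoly = 0 := by
    ext w
    obtain ⟨v, rfl⟩ := hQ w
    rw [h1, LinearMap.aeval_self_charpoly]
    simp
  set b := Module.finBasis ℝ E' with hb
  set M := LinearMap.toMatrix b b D' with hM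
  set p := D.charpoly with hp
  have h3 : Polynomial.aeval M p = 0 := by
    have e := Polynomial.aeval_algHom_apply (LinearMap.toMatrixAlgEquiv b).toAlgHom D' p
    rw [h2, map_zero] at e
    exact e
  let ι : Matrix (Fin (Module.finrank ℝ E')) (Fin (Module.finrank ℝ E')) ℝ →ₐ[ℝ]
      Matrix (Fin (Module.finrank ℝ E')) (Fin (Module.finrank ℝ E')) ℂ :=
    (Algebra.ofId ℝ ℂ).mapMatrix
  have h4 : Polynomial.aeval (ι M) p = 0 := by
    rw [Polynomial.aeval_algHom_apply, h3, map_zero]
  have h5 : Polynomial.aeval (ι M) (p.map (algebraMap ℝ ℂ)) = 0 := by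
    rw [Polynomial.aeval_map_algebraMap, h4]
  have h6 : (ι M).charpoly = (LinearMap.charpoly D').map (algebraMap ℝ ℂ) := by
    rw [← LinearMap.charpoly_toMatrix D' b]
    exact Matrix.charpoly_map M (algebraMap ℝ ℂ)
  have h7 : Module.End.HasEigenvalue (Matrix.toLin' (ι M)) μ := by
    rw [Module.End.hasEigenvalue_iff_isRoot_charpoly, Matrix.charpoly_toLin', h6]
    exact hμ
  obtain ⟨v, hv⟩ := h7.exists_hasEigenvector
  have h8 := Module.End.aeval_apply_of_hasEigenvector (p := p.map (algebraMap ℝ ℂ)) hv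
  have h9 : Polynomial.aeval (Matrix.toLin' (ι M)) (p.map (algebraMap ℝ ℂ)) = 0 := by
    have e := Polynomial.aeval_algHom_apply (Matrix.toLinAlgEquiv' (R := ℂ)
      (n := Fin (Module.finrank ℝ E'))).toAlgHom (ι M) (p.map (algebraMap ℝ ℂ))
    rw [h5, map_zero] at e
    exact e
  rw [h9, LinearMap.zero_apply] at h8
  rcases smul_eq_zero.1 h8.symm with h10 | h10
  · exact h10
  · exact absurd h10 hv.2

end Pool.Agent.R773.TE
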